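import Mathlib
import Pool.Agent.H384R2.Fatou
import Pool.Agent.TH224.SC.Defs
import Pool.Agent.R237.Ann
import Pool.Agent.R237.Bwd

/-!
A transcendental entire function with an infinitely connected Baker wandering domain `U` such that
every critical point of `f` lies in one of the domains `U = U_0, U_1, U_2, …`.

The function is `f(z) = 10^7 z ∏ (1 + z / R_n)` with simple real zeros and a rapidly growing sequence
`R_n`.  All critical points of `f` are real and negative, one between two consecutive zeros, and the
critical values are so large that they fall into the next annulus of the wandering sequence.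
-/

set_option autoImplicit false

open Filter Topology Metric Set

namespace Pool.Agent.Results.MP_8c76c5_an.AllCriticalPoints

open Pool.Agent.H384R2.Fatou Pool.Agent.TH224.SC Pool.Agent.R237

/-- `A ⊂ ℂ` surrounds `0`: in the Riemann sphere `OnePoint ℂ`, the point `0` lies in a component of
the complement of `A` which is bounded (contained in a disc of the plane). -/
def SurroundsZero (A : Set ℂ) : Prop :=
  ((0 : ℂ) : OnePoint ℂ) ∈ (((↑) : ℂ → OnePoint ℂ) '' A)ᶜ ∧
    ∃ r : ℝ, connectedComponentIn (((↑) : ℂ → OnePoint ℂ) '' A)ᶜ ((0 : ℂ) : OnePoint ℂ) ⊆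
      ((↑) : ℂ → OnePoint ℂ) '' ball 0 r

/-- For a point `p` of the Fatou set, the Fatou component `U = U_0` of `p` is a Baker wandering
domain of `f`.  Here `U_k`, the Fatou component containing `f^k(U)`, is the Fatou component of
`f^k(p)`.  The conditions: the `U_k` are pairwise disjoint, `f^n → ∞` on `U`, and for all large `n`
the set `U_n` is bounded, multiply connected (its complement in the Riemann sphere has at least two
components) and surrounds `0`. -/
structure IsBakerWanderingDomain (f : ℂ → ℂ) (p : ℂ) : Prop where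
  mem : p ∈ FatouSet f
  disj : ∀ m n : ℕ, m ≠ n → Disjoint (FatouComponent f (f^[m] p)) (FatouComponent f (f^[n] p))
  esc : ∀ z ∈ FatouComponent f p, Tendsto (fun n => ‖f^[n] z‖) atTop atTop
  ev : ∀ᶠ n in atTop, Bornology.IsBounded (FatouComponent f (f^[n] p)) ∧
    (SphereHoles (FatouComponent f (f^[n] p))).Nontrivial ∧
    SurroundsZero (FatouComponent f (f^[n] p))

/-- There is a transcendental entire function `f` with an infinitely connected Baker wandering domain
`U` (the Fatou component of `p`) such that every critical point of `f` lies in some `U_k`, `k ≥ 0`. -/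
theorem result : ∃ (f : ℂ → ℂ) (p : ℂ), TransEntire f ∧ IsBakerWanderingDomain f p ∧
    (SphereHoles (FatouComponent f p)).Infinite ∧
    ∀ c : ℂ, deriv f c = 0 → ∃ k : ℕ, c ∈ FatouComponent f (f^[k] p) := by
  have h := Bwd.ann
  have hU : ∀ n, FatouComponent Bwd.f (Bwd.f^[n] (Ann.pt fun n => 2 * Bwd.RR n)) =
      Ann.U Bwd.f (fun n => 2 * Bwd.RR n) n := fun n => rfl
  refine ⟨Bwd.f, Ann.pt (fun n => 2 * Bwd.RR n), Bwd.trans, ⟨h.pt_F 0, fun m n hmn => h.U_disj hmn,
    fun z hz => h.U_esc (n := 0) hz, Eventually.of_forall fun n => ⟨?_, ?_, ?_, ?_⟩⟩, Bwd.holes 0,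
    fun c hc => Bwd.crit hc⟩
  · refine (isBounded_ball (x := (0 : ℂ)) (r := 2 * Bwd.RR (n + 1) + 1)).subset ?_
    intro z hz
    rw [mem_ball_zero_iff]
    exact h.U_bdd n z hz
  · exact (Bwd.holes n).nontrivial
  · rintro ⟨z, hz, hz0⟩
    have : z = 0 := OnePoint.coe_injective hz0
    rw [this] at hz
    exact h.not_U_of_hits (n := n) (j := 0) (z := 0) rfl hz
  · refine ⟨2 * Bwd.RR n + 1, ?_⟩
    have h0 : ((0 : ℂ) : OnePoint ℂ) ∈ (((↑) : ℂ → OnePoint ℂ) ''
        Ann.U Bwd.f (fun n => 2 * Bwd.RR n) n)ᶜ := by
      rintro ⟨z, hz, hz0⟩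
      have : z = 0 := OnePoint.coe_injective hz0
      rw [this] at hz
      exact h.not_U_of_hits (n := n) (j := 0) (z := 0) rfl hz
    refine (h.comp_in_disc n (x := 0) ?_ h0).trans (image_mono ?_)
    · rw [norm_zero]
      have := Bwd.RR_pos n
      linarith
    · exact closedBall_subset_ball (by linarith)

end Pool.Agent.Results.MP_8c76c5_an.AllCriticalPoints
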